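import Pool.Agent.W478.RP5.Key
import Pool.Agent.W478.RP5.Val
import Pool.Agent.W478.RP5.Smooth

set_option autoImplicit false

/-!
# R-equivalence on smooth intersections of two quadrics in `P^5` over `p`-adic fields

For every `p`-adic field `k` there is a smooth complete intersection of two quadrics
`X ⊂ P^5_k` with rational points such that `X(k)/R` has at least two elements.
-/

namespace Pool.Agent.Results.MP_8ab79f_ag.NotRTrivialP5

open MvPolynomial

/-- The set `X(k)` of `k`-rational points of the closed subscheme `X : f = g = 0` of `P^n_k`. -/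
def Pt {k : Type*} [Field k] {n : ℕ} (f g : MvPolynomial (Fin (n + 1)) k) :
    Set (Projectivization k (Fin (n + 1) → k)) :=
  {x | eval x.rep f = 0 ∧ eval x.rep g = 0}

/-- `f` and `g` are quadratic forms in `n + 1` variables over `k`, and `X : f = g = 0` is a smooth
complete intersection of two quadrics in `P^n_k`: at every geometric point of `X` the Jacobian
matrix of `f`, `g` has rank two. -/
def IsSmoothIntersectionOfTwoQuadrics {k : Type*} [Field k] {n : ℕ}
    (f g : MvPolynomial (Fin (n + 1)) k) : Prop :=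
  f.IsHomogeneous 2 ∧ g.IsHomogeneous 2 ∧
    ∀ x : Fin (n + 1) → AlgebraicClosure k, x ≠ 0 → aeval x f = 0 → aeval x g = 0 →
      LinearIndependent (AlgebraicClosure k)
        ![fun i => aeval x (pderiv i f), fun i => aeval x (pderiv i g)]

/-- Points `P`, `Q` of `P^n(k)` are directly R-linked on `X : f = g = 0`: there is a rational map
from `P^1_k` to `P^n_k`, given by forms `φ 0, ..., φ n` of one degree `d` in two variables over
`k`, with image in `X` (that is `f (φ) = g (φ) = 0` identically), and there are points `s`, `t` of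
`P^1(k)` at which `φ` does not vanish, with `P = φ(s)` and `Q = φ(t)`. -/
def DirectlyRLinked {k : Type*} [Field k] {n : ℕ} (f g : MvPolynomial (Fin (n + 1)) k)
    (P Q : Projectivization k (Fin (n + 1) → k)) : Prop :=
  ∃ (d : ℕ) (φ : Fin (n + 1) → MvPolynomial (Fin 2) k), (∀ i, (φ i).IsHomogeneous d) ∧
    bind₁ φ f = 0 ∧ bind₁ φ g = 0 ∧
    ∃ (s t : Projectivization k (Fin 2 → k)) (hs : (fun i => eval s.rep (φ i)) ≠ 0)
      (ht : (fun i => eval t.rep (φ i)) ≠ 0),
      P = Projectivization.mk k _ hs ∧ Q = Projectivization.mk k _ ht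

/-- R-equivalence on `X(k)`, `X : f = g = 0`: the equivalence relation generated by the direct
R-links. -/
def REquivalent {k : Type*} [Field k] {n : ℕ} (f g : MvPolynomial (Fin (n + 1)) k)
    (P Q : Pt f g) : Prop :=
  Relation.EqvGen (fun A B : Pt f g => DirectlyRLinked f g A.1 B.1) P Q

/-! ### The example -/

section Example

open Pool.Agent.W478.RP5

variable {k : Type*} [Field k]

/-- `x₁ x₂ + ϖ² y₁² - z w`. -/
noncomputable def F (ϖ : k) : MvPolynomial (Fin (5 + 1)) k :=
  X 0 * X 1 + C (ϖ ^ 2) * X 2 ^ 2 - X 4 * X 5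

/-- `x₁² + x₁ x₂ + c x₂² + ϖ (y₂² + y₂ y₁ + c y₁²) - z² - ϖ w²`. -/
noncomputable def G (ϖ c : k) : MvPolynomial (Fin (5 + 1)) k :=
  (X 0 ^ 2 + X 0 * X 1 + C c * X 1 ^ 2) + C ϖ * (X 3 ^ 2 + X 3 * X 2 + C c * X 2 ^ 2)
    - X 4 ^ 2 - C ϖ * X 5 ^ 2

theorem F_homog (ϖ : k) : (F ϖ).IsHomogeneous 2 := by
  unfold F
  have h1 : ∀ i j : Fin (5 + 1), (X i * X j : MvPolynomial (Fin (5 + 1)) k).IsHomogeneous 2 :=
    fun i j => (isHomogeneous_X k i).mul (isHomogeneous_X k j)
  have h2 : ∀ i : Fin (5 + 1), (X i ^ 2 : MvPolynomial (Fin (5 + 1)) k).IsHomogeneous 2 :=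
    fun i => by simpa using (isHomogeneous_X k i).pow 2
  have h3 : ∀ (a : k) (i : Fin (5 + 1)),
      (C a * X i ^ 2 : MvPolynomial (Fin (5 + 1)) k).IsHomogeneous 2 :=
    fun a i => by simpa using (isHomogeneous_C (Fin (5 + 1)) a).mul (h2 i)
  exact ((h1 0 1).add (h3 _ 2)).sub (h1 4 5)

theorem G_homog (ϖ c : k) : (G ϖ c).IsHomogeneous 2 := by
  unfold G
  have h1 : ∀ i j : Fin (5 + 1), (X i * X j : MvPolynomial (Fin (5 + 1)) k).IsHomogeneous 2 :=
    fun i j => (isHomogeneous_X k i).mul (isHomogeneous_X k j)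
  have h2 : ∀ i : Fin (5 + 1), (X i ^ 2 : MvPolynomial (Fin (5 + 1)) k).IsHomogeneous 2 :=
    fun i => by simpa using (isHomogeneous_X k i).pow 2
  have h3 : ∀ (a : k) (q : MvPolynomial (Fin (5 + 1)) k), q.IsHomogeneous 2 →
      (C a * q : MvPolynomial (Fin (5 + 1)) k).IsHomogeneous 2 :=
    fun a q hq => by simpa using (isHomogeneous_C (Fin (5 + 1)) a).mul hq
  exact (((((h2 0).add (h1 0 1)).add (h3 _ _ (h2 1))).add
    (h3 _ _ (((h2 3).add (h1 3 2)).add (h3 _ _ (h2 2))))).sub (h2 4)).sub (h3 _ _ (h2 5))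

theorem smooth [CharZero k] {v : AbsoluteValue k ℝ} {ϖ c : k} (hv : Disc v ϖ) (hc : Anis v c)
    (hint : ∀ n : ℤ, v n ≤ 1) : IsSmoothIntersectionOfTwoQuadrics (F ϖ) (G ϖ c) := by
  refine ⟨F_homog ϖ, G_homog ϖ c, ?_⟩
  intro x hx hf hg
  obtain ⟨c0, c1, c2, c3, c4, c5⟩ := conditions hv hc hint
  have inj : Function.Injective (algebraMap k (AlgebraicClosure k)) :=
    (algebraMap k (AlgebraicClosure k)).injective
  have tr : ∀ a : k, a ≠ 0 → algebraMap k (AlgebraicClosure k) a ≠ 0 :=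
    fun a ha h => ha (inj (by rw [h, map_zero]))
  have d1 := tr _ c0
  have d2 := tr _ c1
  have d3 := tr _ c2
  have d4 := tr _ c3
  have d5 := tr _ c4
  have d6 := tr _ c5
  simp only [map_sub, map_add, map_mul, map_pow, map_one, map_ofNat] at d3 d4 d5 d6
  simp only [F, G, map_sub, map_add, map_mul, map_pow, aeval_X, aeval_C] at hf hg
  rw [LinearIndependent.pair_iff]
  intro s t hst
  by_contra hcon
  have hlm : s ≠ 0 ∨ t ≠ 0 := by
    by_contra h
    push Not at h
    exact hcon h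
  have key := fun i => congrFun hst i
  simp only [Pi.add_apply, Pi.smul_apply, smul_eq_mul, Pi.zero_apply] at key
  have k0 := key 0
  have k1 := key 1
  have k2 := key 2
  have k3 := key 3
  have k4 := key 4
  have k5 := key 5
  simp only [F, G, map_sub, map_add, Derivation.leibniz, Derivation.leibniz_pow, pderiv_X,
    pderiv_C, smul_eq_mul, nsmul_eq_mul, map_mul, map_pow, aeval_X, aeval_C, Pi.single_apply,
    map_zero] at k0 k1 k2 k3 k4 k5
  norm_num [Fin.ext_iff] at k0 k1 k2 k3 k4 k5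
  have k3' : t * (algebraMap k (AlgebraicClosure k) ϖ * (2 * x 3 + x 2)) = 0 := by
    rcases k3 with h | h | h
    · rw [h]; ring
    · exact absurd h c1
    · rw [h]; ring
  have := jac d1 d2 d3 d4 d5 d6 hlm
    (x₁ := x 0) (x₂ := x 1) (y₁ := x 2) (y₂ := x 3) (z := x 4) (w := x 5)
    (by linear_combination hf) (by linear_combination hg)
    (by linear_combination k0) (by linear_combination k1)
    (by linear_combination k2) (by linear_combination k3')
    (by linear_combination -k4) (by linear_combination -k5)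
  obtain ⟨e0, e1, e2, e3, e4, e5⟩ := this
  apply hx
  funext i
  fin_cases i
  · exact e0
  · exact e1
  · exact e2
  · exact e3
  · exact e4
  · exact e5

/-- The side of a vector: `|z| ≤ |ϖ| |w|`. -/
def Side (v : AbsoluteValue k ℝ) (ϖ : k) (a : Fin (5 + 1) → k) : Prop :=
  v (a 4) ≤ v ϖ * v (a 5)

theorem side_smul {v : AbsoluteValue k ℝ} {ϖ : k} (u : k) (hu : u ≠ 0) (a : Fin (5 + 1) → k) :
    Side v ϖ (u • a) ↔ Side v ϖ a := by
  have hu0 : 0 < v u := (AbsoluteValue.pos_iff v).mpr hu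
  simp only [Side, Pi.smul_apply, smul_eq_mul, map_mul]
  constructor
  · intro h
    have h1 : v u * v (a 4) ≤ v u * (v ϖ * v (a 5)) := by linarith
    exact le_of_mul_le_mul_left h1 hu0
  · intro h
    have h1 : v u * v (a 4) ≤ v u * (v ϖ * v (a 5)) := by gcongr
    linarith

theorem side_mk {v : AbsoluteValue k ℝ} {ϖ : k} (a : Fin (5 + 1) → k) (ha : a ≠ 0) :
    Side v ϖ (Projectivization.mk k a ha).rep ↔ Side v ϖ a := by
  obtain ⟨u, hu⟩ := Projectivization.exists_smul_eq_mk_rep k a ha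
  rw [← hu]
  exact side_smul (u : k) u.ne_zero a

/-- A nonzero solution has `(z, w) ≠ (0, 0)`. -/
theorem zw_ne {v : AbsoluteValue k ℝ} {ϖ c : k} (hv : Disc v ϖ) (hc : Anis v c)
    (a : Fin (5 + 1) → k) (ha : a ≠ 0) (hg : eval a (G ϖ c) = 0) : ¬ (a 4 = 0 ∧ a 5 = 0) := by
  rintro ⟨h4, h5⟩
  simp only [G, map_sub, map_add, map_mul, map_pow, eval_X, eval_C, h4, h5] at hg
  have e : (a 0 ^ 2 + a 0 * a 1 + c * a 1 ^ 2) =
      -(ϖ * (a 3 ^ 2 + a 3 * a 2 + c * a 2 ^ 2)) := by linear_combination hg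
  have e2 := congrArg v e
  rw [AbsoluteValue.map_neg, map_mul, hc, hc] at e2
  obtain ⟨ρ, -, -, hρ⟩ := gen_dense (v := v) (ϖ := ϖ) le_rfl (one_pos (α := ℝ))
  have val : ∀ x y : k, max (v x) (v y) = 0 ∨
      ∃ (n : ℤ) (i : ℕ), max (v x) (v y) = v ϖ ^ n * ρ ^ i := by
    intro x y
    have hx : ∀ x : k, v x = 0 ∨ ∃ (n : ℤ) (i : ℕ), v x = v ϖ ^ n * ρ ^ i := by
      intro x
      by_cases h : x = 0
      · left; rw [h, map_zero]
      · right
        obtain ⟨n, hn⟩ := hv.disc x h
        exact ⟨n, 0, by rw [hn]; simp⟩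
    rcases max_choice (v x) (v y) with h | h <;> rw [h] <;> exact hx _
  obtain ⟨m1, m2⟩ := no_tie hv hρ (val _ _) (val _ _) e2
  have z : ∀ x y : k, max (v x) (v y) = 0 → x = 0 ∧ y = 0 := by
    intro x y h
    have hx := AbsoluteValue.nonneg v x
    have hy := AbsoluteValue.nonneg v y
    have h1 : v x ≤ 0 := h ▸ le_max_left _ _
    have h2 : v y ≤ 0 := h ▸ le_max_right _ _
    exact ⟨(AbsoluteValue.eq_zero v).mp (le_antisymm h1 hx),
      (AbsoluteValue.eq_zero v).mp (le_antisymm h2 hy)⟩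
  obtain ⟨a0, a1⟩ := z _ _ m1
  obtain ⟨a3, a2⟩ := z _ _ m2
  apply ha
  funext i
  fin_cases i
  · exact a0
  · exact a1
  · exact a2
  · exact a3
  · exact h4
  · exact h5

/-- The restriction of a binary form to the line through `a` and `b`. -/
noncomputable def line (a b : Fin 2 → k) : MvPolynomial (Fin 2) k →ₐ[k] Polynomial k :=
  aeval fun j => Polynomial.C (a j) + Polynomial.C (b j) * Polynomial.X

theorem line_coeff_zero (a b : Fin 2 → k) (q : MvPolynomial (Fin 2) k) :
    (line a b q).coeff 0 = eval a q := by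
  have h : (Polynomial.evalRingHom 0).comp (line a b).toRingHom = eval a := by
    apply MvPolynomial.ringHom_ext
    · intro r
      simp [line]
    · intro i
      simp [line]
  have := congrFun (congrArg DFunLike.coe h) q
  rw [Polynomial.coeff_zero_eq_eval_zero]
  exact this

theorem line_deg (a b : Fin 2 → k) (d : ℕ) (q : MvPolynomial (Fin 2) k)
    (hq : q.IsHomogeneous d) :
    (line a b q).natDegree ≤ d ∧ (line a b q).coeff d = eval b q := by
  have lin : ∀ j : Fin 2, (Polynomial.C (a j) + Polynomial.C (b j) * Polynomial.X).natDegree ≤ 1 ∧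
      (Polynomial.C (a j) + Polynomial.C (b j) * Polynomial.X).coeff 1 = b j := by
    intro j
    refine ⟨?_, ?_⟩
    · refine (Polynomial.natDegree_add_le _ _).trans (max_le ?_ ?_)
      · simp
      · exact (Polynomial.natDegree_C_mul_le _ _).trans (by simp)
    · rw [Polynomial.coeff_add, Polynomial.coeff_C_mul]
      simp [Polynomial.coeff_C]
  have mono : ∀ m : Fin 2 →₀ ℕ, m.degree = d →
      (∏ j : Fin 2, (Polynomial.C (a j) + Polynomial.C (b j) * Polynomial.X) ^ m j).natDegree ≤ d ∧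
      (∏ j : Fin 2, (Polynomial.C (a j) + Polynomial.C (b j) * Polynomial.X) ^ m j).coeff d =
        ∏ j : Fin 2, b j ^ m j := by
    intro m hm
    have hd : d = m 0 + m 1 := by
      rw [← hm, Finsupp.degree_eq_sum]
      simp [Fin.sum_univ_two]
    rw [Fin.prod_univ_two, Fin.prod_univ_two]
    have p0 : ((Polynomial.C (a 0) + Polynomial.C (b 0) * Polynomial.X) ^ m 0).natDegree ≤ m 0 := by
      refine Polynomial.natDegree_pow_le.trans ?_
      calc m 0 * _ ≤ m 0 * 1 := Nat.mul_le_mul_left _ (lin 0).1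
        _ = m 0 := mul_one _
    have p1 : ((Polynomial.C (a 1) + Polynomial.C (b 1) * Polynomial.X) ^ m 1).natDegree ≤ m 1 := by
      refine Polynomial.natDegree_pow_le.trans ?_
      calc m 1 * _ ≤ m 1 * 1 := Nat.mul_le_mul_left _ (lin 1).1
        _ = m 1 := mul_one _
    refine ⟨?_, ?_⟩
    · rw [hd]
      exact Polynomial.natDegree_mul_le.trans (add_le_add p0 p1)
    · rw [hd, Polynomial.coeff_mul_add_eq_of_natDegree_le p0 p1]
      have c0 := Polynomial.coeff_pow_of_natDegree_le (m := m 0) (lin 0).1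
      have c1 := Polynomial.coeff_pow_of_natDegree_le (m := m 1) (lin 1).1
      rw [mul_one] at c0 c1
      rw [c0, c1, (lin 0).2, (lin 1).2]
  have expand : line a b q = ∑ m ∈ q.support, Polynomial.C (q.coeff m) *
      ∏ j : Fin 2, (Polynomial.C (a j) + Polynomial.C (b j) * Polynomial.X) ^ m j := by
    unfold line
    rw [aeval_def, eval₂_eq']
    rfl
  have hdeg : ∀ m ∈ q.support, m.degree = d := by
    intro m hm
    rw [Finsupp.degree_eq_weight_one]
    exact hq (mem_support_iff.mp hm)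
  refine ⟨?_, ?_⟩
  · rw [expand]
    apply Polynomial.natDegree_sum_le_of_forall_le
    intro m hm
    exact (Polynomial.natDegree_C_mul_le _ _).trans (mono m (hdeg m hm)).1
  · rw [expand, Polynomial.finsetSum_coeff, eval_eq']
    apply Finset.sum_congr rfl
    intro m hm
    rw [Polynomial.coeff_C_mul, (mono m (hdeg m hm)).2]

theorem sol_line {ϖ c : k} (a b : Fin 2 → k) (φ : Fin (5 + 1) → MvPolynomial (Fin 2) k)
    (hf : bind₁ φ (F ϖ) = 0) (hg : bind₁ φ (G ϖ c) = 0) :
    Sol ϖ c (line a b (φ 0)) (line a b (φ 1)) (line a b (φ 2)) (line a b (φ 3))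
      (line a b (φ 4)) (line a b (φ 5)) := by
  have h1 := congrArg (line a b) hf
  have h2 := congrArg (line a b) hg
  have hC : ∀ r : k, line a b (C r) = Polynomial.C r := by
    intro r
    simp [line]
  simp only [F, G, map_sub, map_add, map_mul, map_pow, bind₁_X_right, bind₁_C_right, hC,
    map_zero] at h1 h2
  refine ⟨?_, ?_⟩
  · rw [map_pow]
    linear_combination h1
  · linear_combination h2

/-- Directly R-linked points lie on the same side. -/
theorem side_linked {v : AbsoluteValue k ℝ} {ϖ c : k} (hv : Disc v ϖ) (hc : Anis v c)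
    (P Q : Pt (F ϖ) (G ϖ c)) (h : DirectlyRLinked (F ϖ) (G ϖ c) P.1 Q.1)
    (hP : Side v ϖ P.1.rep) : Side v ϖ Q.1.rep := by
  obtain ⟨d, φ, hφ, hf, hg, s, t, hs, ht, hPs, hQt⟩ := h
  have evg : ∀ a : Fin 2 → k, eval (fun i => eval a (φ i)) (G ϖ c) = 0 := by
    intro a
    have h1 := congrArg (eval a) hg
    rw [map_zero] at h1
    rw [← h1]
    rw [← MvPolynomial.coe_aeval_eq_eval, ← MvPolynomial.coe_aeval_eq_eval]
    simp only [RingHom.coe_coe]
    rw [aeval_bind₁]
  rw [hPs, side_mk] at hP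
  rw [hQt, side_mk]
  by_contra hQ
  have hzw := zw_ne hv hc _ hs (evg s.rep)
  simp only [Side] at hP hQ
  push Not at hQ
  have S := sol_line s.rep t.rep φ hf hg
  have hw0 : eval s.rep (φ 5) ≠ 0 := by
    intro h5
    rw [h5, map_zero, mul_zero] at hP
    have h4 : eval s.rep (φ 4) = 0 :=
      (AbsoluteValue.eq_zero v).mp (le_antisymm hP (AbsoluteValue.nonneg v _))
    exact hzw ⟨h4, h5⟩
  have hz1 : eval t.rep (φ 4) ≠ 0 := by
    intro h4
    rw [h4, map_zero] at hQ
    have := mul_nonneg hv.pos.le (AbsoluteValue.nonneg v (eval t.rep (φ 5)))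
    linarith
  have hle : v (eval t.rep (φ 5)) ≤ v (eval t.rep (φ 4)) := by
    by_cases h5 : eval t.rep (φ 5) = 0
    · rw [h5, map_zero]
      exact AbsoluteValue.nonneg v _
    · obtain ⟨n, hn⟩ := hv.disc _ hz1
      obtain ⟨m, hm⟩ := hv.disc _ h5
      rw [hn, hm] at hQ ⊢
      have h1 : v ϖ ^ (m + 1) < v ϖ ^ n := by
        rw [zpow_add₀ hv.pos.ne', zpow_one]; linarith
      have h2 : n < m + 1 := (zpow_lt_zpow_iff_right_of_lt_one₀ hv.pos hv.lt).mp h1
      exact (zpow_le_zpow_iff_right_of_lt_one₀ hv.pos hv.lt).mpr (by omega)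
  refine no_cross hv hc S d (line_deg _ _ d _ (hφ 5)).1 ?_ ?_ ?_ ?_
  · rw [line_coeff_zero, line_coeff_zero]; exact hP
  · rw [line_coeff_zero]; exact hw0
  · rw [(line_deg _ _ d _ (hφ 5)).2, (line_deg _ _ d _ (hφ 4)).2]; exact hle
  · rw [(line_deg _ _ d _ (hφ 4)).2]; exact hz1

theorem directlyRLinked_symm {n : ℕ} {f g : MvPolynomial (Fin (n + 1)) k}
    {P Q : Projectivization k (Fin (n + 1) → k)} (h : DirectlyRLinked f g P Q) :
    DirectlyRLinked f g Q P := by
  obtain ⟨d, φ, hφ, hf, hg, s, t, hs, ht, hP, hQ⟩ := h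
  exact ⟨d, φ, hφ, hf, hg, t, s, ht, hs, hQ, hP⟩

theorem side_equiv {v : AbsoluteValue k ℝ} {ϖ c : k} (hv : Disc v ϖ) (hc : Anis v c)
    (P Q : Pt (F ϖ) (G ϖ c)) (h : REquivalent (F ϖ) (G ϖ c) P Q) :
    Side v ϖ P.1.rep ↔ Side v ϖ Q.1.rep := by
  induction h with
  | rel A B hAB =>
    exact ⟨side_linked hv hc A B hAB, side_linked hv hc B A (directlyRLinked_symm hAB)⟩
  | refl A => exact Iff.rfl
  | symm A B _ ih => exact ih.symm
  | trans A B C _ _ ih1 ih2 => exact ih1.trans ih2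

theorem mem_pt_mk {n : ℕ} {f g : MvPolynomial (Fin (n + 1)) k} (hf : f.IsHomogeneous 2)
    (hg : g.IsHomogeneous 2) (a : Fin (n + 1) → k) (ha : a ≠ 0) (h1 : eval a f = 0)
    (h2 : eval a g = 0) : Projectivization.mk k a ha ∈ Pt f g := by
  obtain ⟨u, hu⟩ := Projectivization.exists_smul_eq_mk_rep k a ha
  have key : ∀ q : MvPolynomial (Fin (n + 1)) k, q.IsHomogeneous 2 → eval a q = 0 →
      eval (Projectivization.mk k a ha).rep q = 0 := by
    intro q hq h
    rw [← hu]
    have h3 : eval (fun i => (u : k) * a i) q = (u : k) ^ 2 * eval a q := by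
      rw [eval_eq', eval_eq', Finset.mul_sum]
      apply Finset.sum_congr rfl
      intro m hm
      have hdeg : m.degree = 2 := by
        rw [Finsupp.degree_eq_weight_one]
        exact hq (mem_support_iff.mp hm)
      have : ∏ i, ((u : k) * a i) ^ m i = (u : k) ^ 2 * ∏ i, a i ^ m i := by
        simp_rw [mul_pow]
        rw [Finset.prod_mul_distrib, Finset.prod_pow_eq_pow_sum, ← Finsupp.degree_eq_sum, hdeg]
      rw [this]; ring
    rw [h, mul_zero] at h3
    exact h3
  exact ⟨key f hf h1, key g hg h2⟩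

end Example

/-- For every `p`-adic field `k` there is a smooth complete intersection of two quadrics
`X ⊂ P^5_k` with two rational points which are not R-equivalent. -/
theorem result (p : ℕ) [Fact p.Prime] (k : Type*) [Field k] [Algebra ℚ_[p] k]
    [FiniteDimensional ℚ_[p] k] :
    ∃ f g : MvPolynomial (Fin (5 + 1)) k, IsSmoothIntersectionOfTwoQuadrics f g ∧
      ∃ P Q : Pt f g, ¬ REquivalent f g P Q := by
  obtain ⟨v, ϖ, c, hv, hc, hint⟩ := Pool.Agent.W478.RP5.exists_data p k
  have hchar : CharZero k := charZero_of_injective_algebraMap (algebraMap ℚ_[p] k).injective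
  refine ⟨F ϖ, G ϖ c, smooth hv hc hint, ?_⟩
  have n1 : (![0, 0, 0, 1, 0, 1] : Fin (5 + 1) → k) ≠ 0 := by
    intro h
    have := congrFun h 5
    simp at this
  have n2 : (![1, 0, 0, 0, 1, 0] : Fin (5 + 1) → k) ≠ 0 := by
    intro h
    have := congrFun h 0
    simp at this
  refine ⟨⟨Projectivization.mk k _ n1, mem_pt_mk (F_homog ϖ) (G_homog ϖ c) _ n1 ?_ ?_⟩,
    ⟨Projectivization.mk k _ n2, mem_pt_mk (F_homog ϖ) (G_homog ϖ c) _ n2 ?_ ?_⟩, ?_⟩
  · simp [F]
  · simp [G]
  · simp [F]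
  · simp [G]
  · intro h
    have h1 := side_equiv hv hc _ _ h
    rw [side_mk, side_mk] at h1
    have h2 : Side v ϖ (![0, 0, 0, 1, 0, 1] : Fin (5 + 1) → k) := by
      simp [Side, hv.pos.le]
    have h3 := h1.mp h2
    simp [Side] at h3
    linarith

end Pool.Agent.Results.MP_8ab79f_ag.NotRTrivialP5
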